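import Pool.Agent.H121.GA.IfB
import Pool.Agent.H295.Y987.Ac2

/-! GA-ACR: absolutely continuous spectrum from moment bounds, for random resolvent families (port of
`Pool/Agent/H295/Y987/Ac2.lean` and of `all_vec` in `Y662/TR/Acs.lean`). -/

set_option autoImplicit false
set_option linter.unusedSectionVars false

open scoped BigOperators InnerProductSpace Topology ENNReal
open Filter MeasureTheory

namespace Pool.Agent.H249.GA

open Pool.Agent.Y662.TR (LL Cf dv hu hu_nonneg hu_meas hu_im hu_comm po_mass po_nonneg crit holder_half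
  approx zk_eq fatou_om norm_dv inner_dv ll_coord)
open Pool.Agent.TH369.MU (ep zk poisson_ae)
open Pool.Agent.TH369.MU.PO2 (ep_pos ep_tendsto)
open Pool.Agent.TH794.LL2 (Po Po_int Po_im)
open Pool.Agent.H295.Y987 (zk_im zk_re zk_im_pos zk_im_le zk_sub gk_cont)
open Pool.Agent.H121.GA (Rf SpR)

section abs

variable {ι : Type}

/-- the seminorms -/
noncomputable def qR (R : ℂ → LL ι →L[ℂ] LL ι) (E : ℝ) (k : ℕ) (φ : LL ι) : ℝ :=
  Real.sqrt (ep k) * ‖R (zk E k) φ‖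

theorem qR_nonneg (R : ℂ → LL ι →L[ℂ] LL ι) (E : ℝ) (k : ℕ) (φ : LL ι) : 0 ≤ qR R E k φ := by
  unfold qR
  positivity

theorem qR_add (R : ℂ → LL ι →L[ℂ] LL ι) (E : ℝ) (k : ℕ) (φ ψ : LL ι) :
    qR R E k (φ + ψ) ≤ qR R E k φ + qR R E k ψ := by
  unfold qR
  rw [map_add, ← mul_add]
  exact mul_le_mul_of_nonneg_left (norm_add_le _ _) (Real.sqrt_nonneg _)

theorem qR_smul (R : ℂ → LL ι →L[ℂ] LL ι) (E : ℝ) (k : ℕ) (a : ℂ) (φ : LL ι) :
    qR R E k (a • φ) = ‖a‖ * qR R E k φ := by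
  unfold qR
  rw [map_smul, norm_smul]
  ring

theorem qR_sum (R : ℂ → LL ι →L[ℂ] LL ι) (E : ℝ) (k : ℕ) {κ : Type} (s : Finset κ) (a : κ → ℂ)
    (g : κ → LL ι) :
    qR R E k (∑ j ∈ s, a j • g j) ≤ ∑ j ∈ s, ‖a j‖ * qR R E k (g j) := by
  classical
  induction s using Finset.induction_on with
  | empty => simp [qR]
  | insert i s hi ih =>
    rw [Finset.sum_insert hi, Finset.sum_insert hi]
    refine (qR_add R E k _ _).trans ?_
    rw [qR_smul]
    linarith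

theorem conj_im_ne {z : ℂ} (hz : z.im ≠ 0) : (starRingEnd ℂ z).im ≠ 0 := by
  rw [Complex.conj_im]
  exact neg_ne_zero.2 hz

/-- `Im ⟪φ, R z φ⟫ = Im z ‖R z φ‖²` -/
theorem im_innerR {R : ℂ → LL ι →L[ℂ] LL ι} (h : Rf R) {z : ℂ} (hz : z.im ≠ 0) (φ : LL ι) :
    (⟪φ, R z φ⟫_ℂ).im = z.im * ‖R z φ‖ ^ 2 := by
  have h1 := h.id (starRingEnd ℂ z) z (conj_im_ne hz) hz φ
  have h2 : ⟪φ, R (starRingEnd ℂ z) φ - R z φ⟫_ℂ =
      (starRingEnd ℂ z - z) * ⟪φ, R (starRingEnd ℂ z) (R z φ)⟫_ℂ := by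
    rw [h1, inner_smul_right]
  rw [inner_sub_right, ← h.ad z hz φ φ, ← h.ad z hz φ (R z φ), ← inner_conj_symm (R z φ) φ,
    inner_self_eq_norm_sq_to_K] at h2
  have h3 := congrArg Complex.im h2
  rw [Complex.sub_im, Complex.conj_im] at h3
  have h4 : ((starRingEnd ℂ z - z) * ((‖R z φ‖ : ℝ) : ℂ) ^ 2).im = -(2 * (z.im * ‖R z φ‖ ^ 2)) := by
    rw [← Complex.ofReal_pow, Complex.im_mul_ofReal, Complex.sub_im, Complex.conj_im]
    ring
  have h5 : -(⟪φ, R z φ⟫_ℂ).im - (⟪φ, R z φ⟫_ℂ).im = -(2 * (z.im * ‖R z φ‖ ^ 2)) := h3.trans h4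
  linarith

theorem qR_sq {R : ℂ → LL ι →L[ℂ] LL ι} (h : Rf R) (E : ℝ) (k : ℕ) (φ : LL ι) :
    qR R E k φ ^ 2 = (⟪φ, R (zk E k) φ⟫_ℂ).im := by
  rw [im_innerR h (zk_im_pos E k).ne' φ, zk_im]
  unfold qR
  rw [mul_pow, Real.sq_sqrt (ep_pos k).le]

/-- the seminorms are Poisson integrals -/
theorem qR_po {R : ℂ → LL ι →L[ℂ] LL ι} (h : Rf R) (φ : LL ι) (m : Measure ℝ) (hm : SpR R φ m)
    (E : ℝ) (k : ℕ) : qR R E k φ ^ 2 = Po m E (ep k) := by
  have := hm.1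
  rw [qR_sq h E k φ]
  rw [hm.2 _ (by rw [zk_eq]; simp [(ep_pos k).ne']), zk_eq, Po_im m E (ep k) (ep_pos k)]

theorem spR_mass {R : ℂ → LL ι →L[ℂ] LL ι} (h : Rf R) (φ : LL ι) :
    ∃ m : Measure ℝ, SpR R φ m ∧ m.real Set.univ = ‖φ‖ ^ 2 := by
  obtain ⟨m, hm, hu⟩ := h.sp φ
  refine ⟨m, hm, ?_⟩
  rw [measureReal_def, hu, ENNReal.toReal_ofReal (by positivity)]

/-- measurability in the energy -/
theorem qR_ae {R : ℂ → LL ι →L[ℂ] LL ι} (h : Rf R) (φ : LL ι) (k : ℕ) (U : Set ℝ) :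
    AEMeasurable (fun E => ENNReal.ofReal (qR R E k φ ^ 2)) (volume.restrict U) := by
  obtain ⟨m, hm, hu⟩ := spR_mass h φ
  have := hm.1
  simp only [qR_po h φ m hm]
  have := (po_mass m (ep k) (ep_pos k)).1.aestronglyMeasurable.aemeasurable.ennreal_ofReal
  exact this.restrict

/-- the total mass -/
theorem qR_mass {R : ℂ → LL ι →L[ℂ] LL ι} (h : Rf R) (φ : LL ι) (k : ℕ) (U : Set ℝ) :
    ∫⁻ E in U, ENNReal.ofReal (qR R E k φ ^ 2) ≤ ENNReal.ofReal (4 * ‖φ‖ ^ 2) := by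
  obtain ⟨m, hm, hu⟩ := spR_mass h φ
  have := hm.1
  simp only [qR_po h φ m hm]
  obtain ⟨h1, h2⟩ := po_mass m (ep k) (ep_pos k)
  refine (setLIntegral_le_lintegral _ _).trans ?_
  rw [← ofReal_integral_eq_lintegral_ofReal h1
    (Eventually.of_forall fun E => po_nonneg m E (ep k) (ep_pos k)), h2, hu]
  have := Real.pi_lt_four
  gcongr

/-- **from the sites to all vectors** -/
theorem all_vecR {R : ℂ → LL ι →L[ℂ] LL ι} (hR : Rf R) (α β : ℝ)
    (h : ∀ s : Finset ι, ∃ C : ENNReal, C ≠ ∞ ∧ ∃ᶠ k in atTop, ∀ v ∈ s,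
      ∫⁻ E in Set.Ioo α β, ENNReal.ofReal (qR R E k (dv v) ^ 2) ^ 2 ≤ C)
    (φ : LL ι) (m : Measure ℝ) (hm : SpR R φ m) (A : Set ℝ) (hA : A ⊆ Set.Ioo α β)
    (h0 : volume A = 0) : m A = 0 := by
  have := hm.1
  have key : ∀ δ : ℝ, 0 < δ → m A ≤ ENNReal.ofReal (8 * δ ^ 2) := by
    intro δ hδ
    obtain ⟨s, hs⟩ := approx φ δ hδ
    obtain ⟨C, hC, hfreq⟩ := h s
    obtain ⟨r, hr⟩ : ∃ r, r = φ - ∑ x ∈ s, φ x • dv x := ⟨_, rfl⟩
    rw [← hr] at hs
    obtain ⟨N, hN⟩ : ∃ N, N = 2 * ∑ x ∈ s, ‖φ x‖ ^ 2 := ⟨_, rfl⟩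
    have hN0 : 0 ≤ N := by rw [hN]; positivity
    refine crit m α β (ENNReal.ofReal N * (s.card * C ^ (1 / 2 : ℝ))) _
      (ENNReal.mul_ne_top ENNReal.ofReal_ne_top (ENNReal.mul_ne_top (ENNReal.natCast_ne_top _)
        (ENNReal.rpow_ne_top_of_nonneg (by norm_num) hC))) ?_ A hA h0
    refine hfreq.mono fun k hk U hUo hU => ?_
    have hpt : ∀ E, qR R E k φ ^ 2 ≤ N * ∑ x ∈ s, qR R E k (dv x) ^ 2 + 2 * qR R E k r ^ 2 := by
      intro E
      have h1 : φ = (∑ x ∈ s, φ x • dv x) + r := by rw [hr]; abel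
      have h2 := qR_add R E k (∑ x ∈ s, φ x • dv x) r
      rw [← h1] at h2
      have h3 := qR_sum R E k s (fun x => φ x) dv
      have h4 : qR R E k φ ≤ (∑ x ∈ s, ‖φ x‖ * qR R E k (dv x)) + qR R E k r := by linarith
      have h5 : qR R E k φ ^ 2 ≤ ((∑ x ∈ s, ‖φ x‖ * qR R E k (dv x)) + qR R E k r) ^ 2 :=
        pow_le_pow_left₀ (qR_nonneg _ _ _ _) h4 2
      have h6 := Finset.sum_mul_sq_le_sq_mul_sq s (fun x => ‖φ x‖) (fun x => qR R E k (dv x))
      rw [hN]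
      nlinarith [sq_nonneg ((∑ x ∈ s, ‖φ x‖ * qR R E k (dv x)) - qR R E k r)]
    calc ∫⁻ E in U, ENNReal.ofReal (Po m E (ep k)) =
          ∫⁻ E in U, ENNReal.ofReal (qR R E k φ ^ 2) := by
            simp only [qR_po hR φ m hm]
      _ ≤ ∫⁻ E in U, (ENNReal.ofReal N * ∑ x ∈ s, ENNReal.ofReal (qR R E k (dv x) ^ 2) +
            2 * ENNReal.ofReal (qR R E k r ^ 2)) := by
            refine lintegral_mono fun E => ?_
            refine (ENNReal.ofReal_le_ofReal (hpt E)).trans (le_of_eq ?_)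
            rw [ENNReal.ofReal_add (mul_nonneg hN0 (Finset.sum_nonneg fun x _ => sq_nonneg _))
              (by positivity), ENNReal.ofReal_mul hN0, ENNReal.ofReal_mul (by norm_num),
              ENNReal.ofReal_sum_of_nonneg (fun x _ => sq_nonneg _)]
            norm_num
      _ = ENNReal.ofReal N * ∑ x ∈ s, (∫⁻ E in U, ENNReal.ofReal (qR R E k (dv x) ^ 2)) +
            2 * ∫⁻ E in U, ENNReal.ofReal (qR R E k r ^ 2) := by
            have m1 : AEMeasurable (fun E => ∑ x ∈ s, ENNReal.ofReal (qR R E k (dv x) ^ 2))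
                (volume.restrict U) :=
              Finset.aemeasurable_fun_sum s fun x _ => qR_ae hR (dv x) k U
            rw [lintegral_add_left' (m1.const_mul _), lintegral_const_mul'' _ m1,
              lintegral_finsetSum' s fun x _ => qR_ae hR (dv x) k U,
              lintegral_const_mul'' _ (qR_ae hR r k U)]
      _ ≤ ENNReal.ofReal N * ∑ x ∈ s, C ^ (1 / 2 : ℝ) * (volume U) ^ (1 / 2 : ℝ) +
            2 * ENNReal.ofReal (4 * ‖r‖ ^ 2) := by
            gcongr with x hx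
            · refine holder_half _ U (qR_ae hR (dv x) k U) C ?_
              exact (lintegral_mono_set hU).trans (hk x hx)
            · exact qR_mass hR r k U
      _ ≤ ENNReal.ofReal N * (s.card * C ^ (1 / 2 : ℝ)) * (volume U) ^ (1 / 2 : ℝ) +
            ENNReal.ofReal (8 * δ ^ 2) := by
            rw [Finset.sum_const, nsmul_eq_mul]
            refine add_le_add (le_of_eq (by ring)) ?_
            have h7 : ‖r‖ ^ 2 ≤ δ ^ 2 := by gcongr
            have h8 : ∀ x : ℝ, 2 * ENNReal.ofReal x = ENNReal.ofReal (2 * x) := by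
              intro x
              rw [ENNReal.ofReal_mul (by norm_num)]
              norm_num
            rw [h8]
            apply ENNReal.ofReal_le_ofReal
            linarith
  have h2 : Tendsto (fun n : ℕ => ENNReal.ofReal (8 * (1 / ((n : ℝ) + 1)) ^ 2)) atTop
      (𝓝 (ENNReal.ofReal (8 * 0 ^ 2))) :=
    (ENNReal.continuous_ofReal.tendsto _).comp
      ((tendsto_one_div_add_atTop_nhds_zero_nat.pow 2).const_mul 8)
  have h3 := ge_of_tendsto' h2 (fun n => key _ (by positivity))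
  simpa using h3

theorem R_contE {R : ℂ → LL ι →L[ℂ] LL ι} (hR : Rf R) (k : ℕ) (x y : ι) :
    Continuous fun E : ℝ => R (zk E k) (dv y) x := by
  rw [continuous_iff_continuousAt]
  intro E0
  unfold ContinuousAt
  rw [tendsto_iff_norm_sub_tendsto_zero]
  have h1 : Tendsto (fun E : ℝ => |E - E0| * ‖R (zk E0 k) (dv y)‖ / ep k) (𝓝 E0)
      (𝓝 0) := by
    have h2 : Continuous fun E : ℝ => |E - E0| * ‖R (zk E0 k) (dv y)‖ / ep k := by
      fun_prop
    have h4 := h2.tendsto E0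
    simpa using h4
  refine squeeze_zero (fun E => norm_nonneg _) (fun E => ?_) h1
  have h2 := hR.id (zk E k) (zk E0 k) (zk_im_pos E k).ne' (zk_im_pos E0 k).ne' (dv y)
  have h3 : ‖R (zk E k) (dv y) - R (zk E0 k) (dv y)‖ ≤
      |E - E0| * ‖R (zk E0 k) (dv y)‖ / ep k := by
    rw [h2, norm_smul, zk_sub]
    have h4 := hR.nb (zk E k) (zk_im_pos E k).ne'
    rw [zk_im, abs_of_pos (ep_pos k)] at h4
    have h5 := (R (zk E k)).le_opNorm (R (zk E0 k) (dv y))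
    have h6 : ‖R (zk E k)‖ * ‖R (zk E0 k) (dv y)‖ ≤ 1 / ep k * ‖R (zk E0 k) (dv y)‖ :=
      mul_le_mul_of_nonneg_right h4 (norm_nonneg _)
    calc |E - E0| * ‖R (zk E k) (R (zk E0 k) (dv y))‖ ≤
        |E - E0| * (1 / ep k * ‖R (zk E0 k) (dv y)‖) :=
          mul_le_mul_of_nonneg_left (h5.trans h6) (abs_nonneg _)
      _ = _ := by ring
  exact (ll_coord (R (zk E k) (dv y) - R (zk E0 k) (dv y)) x).trans h3

theorem qR_im {R : ℂ → LL ι →L[ℂ] LL ι} (hR : Rf R) (E : ℝ) (k : ℕ) (x : ι) :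
    qR R E k (dv x) ^ 2 = (R (zk E k) (dv x) x).im := by
  rw [qR_sq hR, inner_dv]

/-- the quantity -/
noncomputable def qhR (R : ℂ → LL ι →L[ℂ] LL ι) (g : ℂ → ℂ) (k : ℕ) (x : ι) (E : ℝ) :
    ENNReal :=
  ENNReal.ofReal (hu (R (zk E k) (dv x) x) (g (zk E k)) ^ 2)

theorem jointR [Countable ι] {Ω : Type} [MeasurableSpace Ω] (R : Ω → ℂ → (LL ι →L[ℂ] LL ι))
    (hR : ∀ ω, Rf (R ω)) (g : ℂ → ℂ) (hg : ContinuousOn g {z | 0 < z.im})
    (hm : ∀ (z : ℂ) (x y : ι), z.im ≠ 0 → Measurable fun ω => R ω z (dv y) x)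
    (k : ℕ) (x : ι) :
    Measurable (Function.uncurry fun (E : ℝ) (ω : Ω) => qhR (R ω) g k x E) := by
  have h1 : Measurable (Function.uncurry fun (E : ℝ) (ω : Ω) =>
      R ω (zk E k) (dv x) x) :=
    measurable_uncurry_of_continuous_of_measurable (fun ω => R_contE (hR ω) k x x)
      (fun E => hm (zk E k) x x (zk_im_pos E k).ne')
  have h2 : Measurable fun p : ℝ × Ω => g (zk p.1 k) :=
    (gk_cont g hg k).measurable.comp measurable_fst
  have h3 : Measurable fun p : ℝ × Ω =>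
      hu (R p.2 (zk p.1 k) (dv x) x) (g (zk p.1 k)) := by
    unfold hu
    have h4 : Measurable fun p : ℝ × Ω => R p.2 (zk p.1 k) (dv x) x := h1
    exact ((h4.sub h2).norm.pow_const 2).div ((Complex.measurable_im.comp h4).mul
      (Complex.measurable_im.comp h2))
  exact (h3.pow_const 2).ennreal_ofReal

/-- upper bound -/
theorem det_acR {R : ℂ → LL ι →L[ℂ] LL ι} (hR : Rf R)
    (hpos : ∀ (z : ℂ) (x : ι), 0 < z.im → 0 < (R z (dv x) x).im) (g : ℂ → ℂ)
    (α β c C0 : ℝ) (hc : 0 < c)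
    (hb : ∀ E ∈ Set.Ioo α β, ∀ k, c ≤ (g (zk E k)).im ∧ ‖g (zk E k)‖ ≤ C0)
    (h : ∀ s : Finset ι, liminf (fun k => ∫⁻ E in Set.Ioo α β, ∑ v ∈ s, qhR R g k v E)
      atTop < ∞) (φ : LL ι) (m : Measure ℝ) (hm : SpR R φ m) (A : Set ℝ)
    (hA : A ⊆ Set.Ioo α β) (h0 : volume A = 0) : m A = 0 := by
  refine all_vecR hR α β (fun s => ?_) φ m hm A hA h0
  obtain ⟨C, hC1, hC2⟩ := exists_between (h s)
  have hfreq := frequently_lt_of_liminf_lt (by isBoundedDefault) hC1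
  obtain ⟨K, hK⟩ : ∃ K, K = |C0| + 1 := ⟨_, rfl⟩
  have hK0 : 0 < K := by rw [hK]; positivity
  refine ⟨ENNReal.ofReal (2 * K ^ 2) * C + ENNReal.ofReal (8 * K ^ 2) * volume (Set.Ioo α β),
    ENNReal.add_ne_top.2 ⟨ENNReal.mul_ne_top ENNReal.ofReal_ne_top hC2.ne,
      ENNReal.mul_ne_top ENNReal.ofReal_ne_top (by simp)⟩, hfreq.mono fun k hk v hv => ?_⟩
  have hpt : ∀ E ∈ Set.Ioo α β, ENNReal.ofReal (qR R E k (dv v) ^ 2) ^ 2 ≤
      ENNReal.ofReal (2 * K ^ 2) * qhR R g k v E + ENNReal.ofReal (8 * K ^ 2) := by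
    intro E hE
    have g1 := hpos (zk E k) v (zk_im_pos E k)
    have g2 : 0 < (g (zk E k)).im := hc.trans_le (hb E hE k).1
    have g3 := hu_im g1 g2
    have g4 := hu_nonneg g1 g2
    have g5 : (g (zk E k)).im ≤ K := by
      rw [hK]
      have := (hb E hE k).2
      linarith [Complex.im_le_norm (g (zk E k)), le_abs_self C0]
    rw [qR_im hR, ← ENNReal.ofReal_pow g1.le]
    unfold qhR
    rw [← ENNReal.ofReal_mul (by positivity), ← ENNReal.ofReal_add (by positivity) (by positivity)]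
    apply ENNReal.ofReal_le_ofReal
    obtain ⟨a, ha⟩ : ∃ a, a = hu (R (zk E k) (dv v) v) (g (zk E k)) := ⟨_, rfl⟩
    rw [← ha] at g3 g4 ⊢
    have g6 : (R (zk E k) (dv v) v).im ≤ (a + 2) * K := by
      refine g3.trans ?_
      gcongr
    calc (R (zk E k) (dv v) v).im ^ 2 ≤ ((a + 2) * K) ^ 2 := by gcongr
      _ ≤ 2 * K ^ 2 * a ^ 2 + 8 * K ^ 2 := by nlinarith [sq_nonneg ((a - 2) * K)]
  calc ∫⁻ E in Set.Ioo α β, ENNReal.ofReal (qR R E k (dv v) ^ 2) ^ 2 ≤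
      ∫⁻ E in Set.Ioo α β, (ENNReal.ofReal (2 * K ^ 2) * qhR R g k v E +
        ENNReal.ofReal (8 * K ^ 2)) := setLIntegral_mono' measurableSet_Ioo hpt
    _ = ENNReal.ofReal (2 * K ^ 2) * (∫⁻ E in Set.Ioo α β, qhR R g k v E) +
        ENNReal.ofReal (8 * K ^ 2) * volume (Set.Ioo α β) := by
        rw [lintegral_add_right _ measurable_const, lintegral_const_mul' _ _ ENNReal.ofReal_ne_top,
          lintegral_const, Measure.restrict_apply_univ]
    _ ≤ _ := by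
        gcongr
        refine le_trans (lintegral_mono fun E => ?_) hk.le
        exact Finset.single_le_sum (f := fun v => qhR R g k v E) (fun _ _ => zero_le) hv

/-- lower bound -/
theorem det_posR {R : ℂ → LL ι →L[ℂ] LL ι} (hR : Rf R)
    (hpos : ∀ (z : ℂ) (x : ι), 0 < z.im → 0 < (R z (dv x) x).im) (g : ℂ → ℂ)
    (α β m0 : ℝ) (hm0 : 0 < m0) (k0 : ℕ)
    (hlow : ∀ E ∈ Set.Ioo α β, ∀ k, k0 ≤ k → m0 ≤ (g (zk E k)).im) (v : ι)
    (hmeas : ∀ k, Measurable (qhR R g k v))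
    (h : liminf (fun k => ∫⁻ E in Set.Ioo α β, qhR R g k v E) atTop < ∞)
    (m : Measure ℝ) (hm : SpR R (dv v) m) (A : Set ℝ) (hA : A ⊆ Set.Ioo α β)
    (hAm : MeasurableSet A) (h0 : m A = 0) : volume A = 0 := by
  have := hm.1
  have h1 : ∫⁻ E in Set.Ioo α β, liminf (fun k => qhR R g k v E) atTop < ∞ :=
    (lintegral_liminf_le hmeas).trans_lt h
  have h2 : ∀ᵐ E ∂(volume.restrict (Set.Ioo α β)), liminf (fun k => qhR R g k v E) atTop < ∞ :=
    ae_lt_top (Measurable.liminf hmeas) h1.ne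
  have h3 : ∀ᵐ E ∂(volume.restrict (Set.Ioo α β)), m.rnDeriv volume E ≠ 0 := by
    filter_upwards [h2, ae_restrict_of_ae (poisson_ae m), ae_restrict_mem measurableSet_Ioo]
      with E e1 e2 e3 hzero
    obtain ⟨C, hC1, hC2⟩ := exists_between e1
    have hfreq := frequently_lt_of_liminf_lt (by isBoundedDefault) hC1
    rw [hzero, ENNReal.toReal_zero, mul_zero] at e2
    have hδ : 0 < m0 / (Real.sqrt C.toReal + 2) := by positivity
    have e4 := e2.eventually_lt_const hδ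
    obtain ⟨k, ⟨k1, k2⟩, k3⟩ := (hfreq.and_eventually (e4.and (eventually_ge_atTop k0))).exists.imp
      fun k hk => (⟨⟨hk.1, hk.2.1⟩, hk.2.2⟩ : (_ ∧ _) ∧ _)
    have g1 := hpos (zk E k) v (zk_im_pos E k)
    have g2 : 0 < (g (zk E k)).im := hm0.trans_le (hlow E e3 k k3)
    have g3 := hu_im g2 g1
    have g4 := hu_nonneg g1 g2
    rw [hu_comm] at g3
    have g5 := qR_po hR (dv v) m hm E k
    rw [qR_im hR] at g5
    unfold qhR at k1
    obtain ⟨a, ha⟩ : ∃ a, a = hu (R (zk E k) (dv v) v) (g (zk E k)) := ⟨_, rfl⟩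
    rw [← ha] at g3 g4 k1
    have g6 : a ^ 2 < C.toReal := by
      rw [← ENNReal.ofReal_lt_ofReal_iff_of_nonneg (sq_nonneg a), ENNReal.ofReal_toReal hC2.ne]
      exact k1
    have g7 : a ≤ Real.sqrt C.toReal := Real.le_sqrt_of_sq_le g6.le
    have g8 := hlow E e3 k k3
    have g9 : (R (zk E k) (dv v) v).im < m0 / (Real.sqrt C.toReal + 2) := by
      rw [g5]
      exact k2
    rw [lt_div_iff₀ (by positivity)] at g9
    nlinarith
  have h4 : ∫⁻ E in A, m.rnDeriv volume E = 0 :=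
    le_antisymm ((Measure.setLIntegral_rnDeriv_le A).trans h0.le) zero_le
  have h5 : ∀ᵐ E ∂(volume.restrict A), m.rnDeriv volume E = 0 := by
    have := (lintegral_eq_zero_iff (Measure.measurable_rnDeriv m volume)).1 h4
    filter_upwards [this] with E hE
    exact hE
  have h6 : ∀ᵐ E ∂(volume.restrict A), m.rnDeriv volume E ≠ 0 :=
    ae_restrict_of_ae_restrict_of_subset hA h3
  have h7 : ∀ᵐ E ∂(volume.restrict A), False := by
    filter_upwards [h5, h6] with E e1 e2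
    exact e2 e1
  rw [Filter.eventually_false_iff_eq_bot, ae_eq_bot, Measure.restrict_eq_zero] at h7
  exact h7

end abs

/-- **GA-ACR** -/
theorem acR : Pool.Agent.H121.GA.S_acR := by
  intro ι Ω hι hΩ P hP R g α β c C e hR hm hg hc hpos hbd hmom
  have hj : ∀ (k : ℕ) (v : ι), Measurable (Function.uncurry fun (E : ℝ) (ω : Ω) =>
      qhR (R ω) g k v E) := fun k v => jointR R hR g hg hm k v
  have hbd' : ∀ E ∈ Set.Ioo α β, ∀ k, c ≤ (g (zk E k)).im ∧ ‖g (zk E k)‖ ≤ C := by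
    intro E hE k
    refine hbd (zk E k) ?_ ?_ (zk_im_pos E k) (zk_im_le E k)
    · rw [zk_re]; exact hE.1
    · rw [zk_re]; exact hE.2
  have hq : ∀ (k : ℕ) (v : ι) (E : ℝ), E ∈ Set.Ioo α β →
      ∫⁻ ω, qhR (R ω) g k v E ∂P ≤ ENNReal.ofReal e := by
    intro k v E hE
    exact hmom (zk E k) (by rw [zk_re]; exact hE.1) (by rw [zk_re]; exact hE.2)
      (zk_im_pos E k) (zk_im_le E k) v
  have hfin : ∀ s : Finset ι, ∀ᵐ ω ∂P,
      liminf (fun k => ∫⁻ E in Set.Ioo α β, ∑ v ∈ s, qhR (R ω) g k v E) atTop < ∞ := by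
    intro s
    refine fatou_om P (fun k E ω => ∑ v ∈ s, qhR (R ω) g k v E)
      (fun k => Finset.measurable_fun_sum s fun v _ => hj k v)
      (Set.Ioo α β) measurableSet_Ioo (by simp) (s.card * ENNReal.ofReal e)
      (ENNReal.mul_ne_top (ENNReal.natCast_ne_top _) ENNReal.ofReal_ne_top) 0
      (fun k _ E hE => ?_)
    rw [lintegral_finsetSum s fun v _ => Measurable.of_uncurry_left (hj k v)]
    refine (Finset.sum_le_sum fun v _ => hq k v E hE).trans ?_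
    rw [Finset.sum_const, nsmul_eq_mul]
  have hall : ∀ᵐ ω ∂P, ∀ s : Finset ι,
      liminf (fun k => ∫⁻ E in Set.Ioo α β, ∑ v ∈ s, qhR (R ω) g k v E) atTop < ∞ :=
    ae_all_iff.2 hfin
  filter_upwards [hall] with ω hω
  refine ⟨fun φ m hm A hA hv => ?_, fun x m hm A hA hAm hv => ?_⟩
  · exact det_acR (hR ω) (hpos ω) g α β c C hc hbd' hω φ m hm A hA hv
  · have hs := hω {x}
    simp only [Finset.sum_singleton] at hs
    exact det_posR (hR ω) (hpos ω) g α β c hc 0 (fun E hE k _ => (hbd' E hE k).1) x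
      (fun k => Measurable.of_uncurry_right (hj k x)) hs m hm A hA hAm hv

end Pool.Agent.H249.GA
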